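import Pool.Agent.Helper84.PL.Main
import Pool.Agent.Helper80.Lat.Bal

set_option autoImplicit false

/-!
# Stack number of planar lattices whose faces are balanced or long
-/

namespace Pool.Agent.Results.MP_d6b153_co.BalancedOrLong

/-- The poset `V` is planar: its cover diagram has an upward planar drawing. The element `v` is
drawn at the point `p v` and the cover pair `a ⋖ b` as the curve `γ a b : [0,1] → ℝ × ℝ` from
`p a` to `p b`, with strictly increasing second coordinate, which meets no other point `p v`; two
different curves meet only in points `p v`. -/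
def UpwardPlanar (V : Type) [PartialOrder V] : Prop :=
  ∃ (p : V → ℝ × ℝ) (γ : V → V → ℝ → ℝ × ℝ),
    Function.Injective p ∧
    (∀ a b : V, a ⋖ b →
      ContinuousOn (γ a b) (Set.Icc 0 1) ∧ γ a b 0 = p a ∧ γ a b 1 = p b ∧
      (∀ s ∈ Set.Icc (0:ℝ) 1, ∀ t ∈ Set.Icc (0:ℝ) 1, s < t → (γ a b s).2 < (γ a b t).2) ∧
      (∀ v : V, ∀ s ∈ Set.Icc (0:ℝ) 1, γ a b s = p v → v = a ∨ v = b)) ∧
    (∀ a b c d : V, a ⋖ b → c ⋖ d → (a ≠ c ∨ b ≠ d) →
      ∀ s ∈ Set.Icc (0:ℝ) 1, ∀ t ∈ Set.Icc (0:ℝ) 1,
        γ a b s = γ c d t → ∃ v : V, γ a b s = p v)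

/-- The poset `V` has a `k`-stack layout: a linear extension (given by the injective numbering
`σ`) and a colouring `c` of the cover pairs with `k` colours such that no two cover pairs of the
same colour cross. -/
def StackLayout (k : ℕ) (V : Type) [PartialOrder V] : Prop :=
  ∃ (σ : V → ℕ) (c : V → V → Fin k),
    Function.Injective σ ∧ (∀ a b : V, a < b → σ a < σ b) ∧
    ∀ a b x y : V, a ⋖ b → x ⋖ y → c a b = c x y →
      ¬ (σ a < σ x ∧ σ x < σ b ∧ σ b < σ y)

/-- The list `l` is a saturated chain. -/
def SatChain {V : Type} [PartialOrder V] (l : List V) : Prop := l.IsChain (· ⋖ ·)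

/-- Two saturated chains with the same ends and no other common element. -/
def Ends {V : Type} [PartialOrder V] (l l' : List V) : Prop :=
  SatChain l ∧ SatChain l' ∧ l.head? = l'.head? ∧ l.getLast? = l'.getLast? ∧
    ∀ x ∈ l, x ∈ l' → some x = l.head? ∨ some x = l.getLast?

/-- Let `V` be a finite planar lattice in which two saturated chains with the same ends and no
other common element always have the same number of elements or at least five elements (four
cover pairs) each. Then `V` has a 10-stack layout. -/
theorem result : ∀ (V : Type) [Fintype V] [Lattice V], UpwardPlanar V →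
    (∀ l l' : List V, Ends l l' → l.length = l'.length ∨ (5 ≤ l.length ∧ 5 ≤ l'.length)) →
    StackLayout 10 V := by
  intro V _ _ hV h
  rcases isEmpty_or_nonempty V with hE | hN
  · exact Pool.Agent.Helper84.PL.empty_layout _ V
  · obtain ⟨χ, h2, h1⟩ := Pool.Agent.Helper80.Lat.bal V hV
      (fun l l' a b c d e => h l l' ⟨a, b, c, d, e⟩)
    exact Pool.Agent.Helper84.PL.main V hV χ 2 h1 h2

end Pool.Agent.Results.MP_d6b153_co.BalancedOrLong
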