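import Pool.Agent.Helper80.Stack.Asm
import Pool.Agent.Helper80.Stack.Tri
import Pool.Agent.Helper80.Stack.SplitMain
import Pool.Agent.Helper90.Stk.Block
import Pool.Agent.Helper39.Stk.StmtQueue
import Pool.Agent.Helper3.Stk.FromLD
import Pool.Agent.Helper27.Stk.Comp
import Pool.Agent.Helper31.Stk.Bfs
import Pool.Agent.Helper45.Stk.Curve
import Pool.Agent.Helper42.Stk.Key
import Pool.Agent.Helper49.Stk.CycP
import Pool.Agent.Helper17.Stk.Map
import Pool.Agent.Helper10.Stk.TriEdges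
import Pool.Agent.Helper10.Stk.Sperner
import Pool.Agent.Helper35.Stk.TriDeg
import Pool.Agent.Helper56.Stk.Orbit
import Pool.Agent.Helper23.Stk.TriFill
import Pool.Agent.Helper49.Stk.TriUL
import Pool.Agent.Helper49.Stk.Circuit
import Pool.Agent.Helper92.Stk.Theta
import Pool.Agent.Helper36.Stk.Decomp

/-!
# Stack number of planar posets with bipartite cover graph and bounded stretch
-/

namespace Pool.Agent.Results.MP_d6b153_co.GradedPlanar

/-- The poset `V` is planar: its cover diagram has an upward planar drawing. The element `v` is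
drawn at the point `p v` and the cover pair `a ⋖ b` as the curve `γ a b : [0,1] → ℝ × ℝ` from
`p a` to `p b`, with strictly increasing second coordinate, which meets no other point `p v`; two
different curves meet only in points `p v`. -/
def UpwardPlanar (V : Type) [PartialOrder V] : Prop :=
  ∃ (p : V → ℝ × ℝ) (γ : V → V → ℝ → ℝ × ℝ),
    Function.Injective p ∧
    (∀ a b : V, a ⋖ b →
      ContinuousOn (γ a b) (Set.Icc 0 1) ∧ γ a b 0 = p a ∧ γ a b 1 = p b ∧
      (∀ s ∈ Set.Icc (0:ℝ) 1, ∀ t ∈ Set.Icc (0:ℝ) 1, s < t → (γ a b s).2 < (γ a b t).2) ∧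
      (∀ v : V, ∀ s ∈ Set.Icc (0:ℝ) 1, γ a b s = p v → v = a ∨ v = b)) ∧
    (∀ a b c d : V, a ⋖ b → c ⋖ d → (a ≠ c ∨ b ≠ d) →
      ∀ s ∈ Set.Icc (0:ℝ) 1, ∀ t ∈ Set.Icc (0:ℝ) 1,
        γ a b s = γ c d t → ∃ v : V, γ a b s = p v)

/-- The poset `V` has a `k`-stack layout: a linear extension (given by the injective numbering
`σ`) and a colouring `c` of the cover pairs with `k` colours such that no two cover pairs of the
same colour cross. -/
def StackLayout (k : ℕ) (V : Type) [PartialOrder V] : Prop :=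
  ∃ (σ : V → ℕ) (c : V → V → Fin k),
    Function.Injective σ ∧ (∀ a b : V, a < b → σ a < σ b) ∧
    ∀ a b x y : V, a ⋖ b → x ⋖ y → c a b = c x y →
      ¬ (σ a < σ x ∧ σ x < σ b ∧ σ b < σ y)

open Pool.Agent.Helper80.Stk in
/-- For every `c` there is a `k` such that every finite planar poset `V` whose cover graph is
bipartite and which has a function `ρ : V → ℤ` with `1 ≤ ρ b - ρ a ≤ c` for every cover pair
`a ⋖ b` has a `k`-stack layout. -/
theorem result : ∀ c : ℕ, ∃ k : ℕ, ∀ (V : Type) [Fintype V] [PartialOrder V],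
    UpwardPlanar V →
    (∃ π : V → Bool, ∀ a b : V, a ⋖ b → π a ≠ π b) →
    (∃ ρ : V → ℤ, ∀ a b : V, a ⋖ b → 1 ≤ ρ b - ρ a ∧ ρ b - ρ a ≤ c) →
    StackLayout k V := by
  intro c
  have hE := Pool.Agent.Helper10.Stk.pf_TriEdges
  obtain ⟨k, hk⟩ := good_of
    (pf_FromLD Pool.Agent.Helper90.Stk.pf_Block Pool.Agent.Helper39.Stk.pf_StmtQueue)
    Pool.Agent.Helper27.Stk.pf_Comp
    (Pool.Agent.Helper17.Stk.pf_Map Pool.Agent.Helper42.Stk.pf_UpInj
      Pool.Agent.Helper42.Stk.pf_Key Pool.Agent.Helper49.Stk.pf_Cyc)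
    (pf_Tri hE (Pool.Agent.Helper23.Stk.pf_TriFill hE (Helper35.Stk.pf_TriDeg hE)
      Pool.Agent.Helper56.Stk.pf_Orbit) (Pool.Agent.Helper49.Stk.pf_TriUniq hE)
      (Pool.Agent.Helper49.Stk.pf_TriLink hE))
    (Pool.Agent.Helper36.Stk.pf_Decomp (pf_Split
      (Pool.Agent.Helper92.Stk.pf_Theta Pool.Agent.Helper49.Stk.pf_Circuit)
      Pool.Agent.Helper10.Stk.pf_Sperner))
    Pool.Agent.Helper31.Stk.pf_Bfs (2 * c + 1)
  refine ⟨k, ?_⟩
  rintro V _ _ ⟨p, γ, h1, h2, h3⟩ ⟨π, hπ⟩ ⟨ρ, hρ⟩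
  obtain ⟨σ, col, g1, g2, g3⟩ := hk V (fun a b => a ⋖ b)
    (Pool.Agent.Helper45.Stk.pf_Curve V _ p γ h1 h2 h3)
    ⟨fun v => 2 * ρ v + (if π v then 1 else 0), fun a b hab => by
      obtain ⟨h4, h5⟩ := hρ a b hab
      have h6 := hπ a b hab
      dsimp only
      have h7 : (if π b then (1 : ℤ) else 0) - (if π a then (1 : ℤ) else 0) = 1 ∨
          (if π b then (1 : ℤ) else 0) - (if π a then (1 : ℤ) else 0) = -1 := by
        cases ha : π a <;> cases hb : π b <;> simp_all
      generalize (if π b then (1 : ℤ) else 0) = q at *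
      generalize (if π a then (1 : ℤ) else 0) = r at *
      push_cast
      refine ⟨?_, ?_, ?_⟩
      · rcases h7 with h7 | h7
        · exact ⟨ρ b - ρ a, by linarith⟩
        · exact ⟨ρ b - ρ a - 1, by linarith⟩
      · rcases h7 with h7 | h7 <;> linarith
      · rcases h7 with h7 | h7 <;> linarith⟩
  refine ⟨σ, col, g1, ?_, g3⟩
  intro a b hab
  classical
  let _ : LocallyFiniteOrder V := Fintype.toLocallyFiniteOrder
  have h4 := (lt_iff_transGen_covBy).mp hab
  induction h4 with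
  | single h => exact g2 _ _ h
  | tail h h' ih =>
    exact lt_trans (ih ((lt_iff_transGen_covBy).mpr h)) (g2 _ _ h')

end Pool.Agent.Results.MP_d6b153_co.GradedPlanar
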