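import Pool.Agent.Helper80.Log.Main

set_option autoImplicit false

/-!
# Planar lattices with `n` elements have stack number `O(log n)`
-/

namespace Pool.Agent.Results.MP_d6b153_co.LogStacks

/-- The poset `V` is planar: its cover diagram has an upward planar drawing. The element `v` is
drawn at the point `p v` and the cover pair `a ⋖ b` as the curve `γ a b : [0,1] → ℝ × ℝ` from
`p a` to `p b`, with strictly increasing second coordinate, which meets no other point `p v`; two
different curves meet only in points `p v`. -/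
def UpwardPlanar (V : Type) [PartialOrder V] : Prop :=
  ∃ (p : V → ℝ × ℝ) (γ : V → V → ℝ → ℝ × ℝ),
    Function.Injective p ∧
    (∀ a b : V, a ⋖ b →
      ContinuousOn (γ a b) (Set.Icc 0 1) ∧ γ a b 0 = p a ∧ γ a b 1 = p b ∧
      (∀ s ∈ Set.Icc (0:ℝ) 1, ∀ t ∈ Set.Icc (0:ℝ) 1, s < t → (γ a b s).2 < (γ a b t).2) ∧
      (∀ v : V, ∀ s ∈ Set.Icc (0:ℝ) 1, γ a b s = p v → v = a ∨ v = b)) ∧
    (∀ a b c d : V, a ⋖ b → c ⋖ d → (a ≠ c ∨ b ≠ d) →
      ∀ s ∈ Set.Icc (0:ℝ) 1, ∀ t ∈ Set.Icc (0:ℝ) 1,
        γ a b s = γ c d t → ∃ v : V, γ a b s = p v)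

/-- The poset `V` has a `k`-stack layout: a linear extension (given by the injective numbering
`σ`) and a colouring `c` of the cover pairs with `k` colours such that no two cover pairs of the
same colour cross. -/
def StackLayout (k : ℕ) (V : Type) [PartialOrder V] : Prop :=
  ∃ (σ : V → ℕ) (c : V → V → Fin k),
    Function.Injective σ ∧ (∀ a b : V, a < b → σ a < σ b) ∧
    ∀ a b x y : V, a ⋖ b → x ⋖ y → c a b = c x y →
      ¬ (σ a < σ x ∧ σ x < σ b ∧ σ b < σ y)

/-- Every finite planar lattice with `n` elements has a stack layout with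
`2 ⌈log₂ n⌉ + 1` stacks. -/
theorem result : ∀ (V : Type) [Fintype V] [Lattice V], UpwardPlanar V →
    StackLayout (2 * Nat.clog 2 (Fintype.card V) + 1) V := by
  intro V _ _ hV
  exact Pool.Agent.Helper80.Log.main V hV

end Pool.Agent.Results.MP_d6b153_co.LogStacks
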