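import Pool.Agent.Helper84.PL.Lists
import Pool.Agent.Helper80.Lat.Glue
import Pool.Agent.Helper86.PL.MT
import Pool.Agent.Helper61.PL.HT
import Pool.Agent.Helper61.PL.LIN
import Pool.Agent.Helper5.PL.XL
import Pool.Agent.Helper96.PL.FOR
import Pool.Agent.Helper44.PL.BI
import Pool.Agent.Helper44.PL.MO
import Pool.Agent.Helper56.PL.MAIN
import Pool.Agent.Helper22.PL.BIP
import Pool.Agent.Helper15.PL.STR

set_option autoImplicit false

/-!
# Stack number of planar lattices with a good colouring

Every finite planar lattice with a 2-colouring of its elements such that the monochromatic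
saturated chains have at most `c` elements and any two saturated chains with the same ends have
the same number of colour changes or at least two colour changes each has a stack layout with
`3 c ^ 2 - c` stacks. In particular: bipartite cover graph, 2 stacks; stretch at most `c`,
`3 c ^ 2 - c` stacks.
-/

namespace Pool.Agent.Results.MP_d6b153_co.PlanarLattices

/-- The poset `V` is planar: its cover diagram has an upward planar drawing. The element `v` is
drawn at the point `p v` and the cover pair `a ⋖ b` as the curve `γ a b : [0,1] → ℝ × ℝ` from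
`p a` to `p b`, with strictly increasing second coordinate, which meets no other point `p v`; two
different curves meet only in points `p v`. -/
def UpwardPlanar (V : Type) [PartialOrder V] : Prop :=
  ∃ (p : V → ℝ × ℝ) (γ : V → V → ℝ → ℝ × ℝ),
    Function.Injective p ∧
    (∀ a b : V, a ⋖ b →
      ContinuousOn (γ a b) (Set.Icc 0 1) ∧ γ a b 0 = p a ∧ γ a b 1 = p b ∧
      (∀ s ∈ Set.Icc (0:ℝ) 1, ∀ t ∈ Set.Icc (0:ℝ) 1, s < t → (γ a b s).2 < (γ a b t).2) ∧
      (∀ v : V, ∀ s ∈ Set.Icc (0:ℝ) 1, γ a b s = p v → v = a ∨ v = b)) ∧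
    (∀ a b c d : V, a ⋖ b → c ⋖ d → (a ≠ c ∨ b ≠ d) →
      ∀ s ∈ Set.Icc (0:ℝ) 1, ∀ t ∈ Set.Icc (0:ℝ) 1,
        γ a b s = γ c d t → ∃ v : V, γ a b s = p v)

/-- The poset `V` has a `k`-stack layout: a linear extension (given by the injective numbering
`σ`) and a colouring `c` of the cover pairs with `k` colours such that no two cover pairs of the
same colour cross. -/
def StackLayout (k : ℕ) (V : Type) [PartialOrder V] : Prop :=
  ∃ (σ : V → ℕ) (c : V → V → Fin k),
    Function.Injective σ ∧ (∀ a b : V, a < b → σ a < σ b) ∧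
    ∀ a b x y : V, a ⋖ b → x ⋖ y → c a b = c x y →
      ¬ (σ a < σ x ∧ σ x < σ b ∧ σ b < σ y)

/-- The number of changes of the colour `χ` along a list. -/
def changes {V : Type} (χ : V → Bool) : List V → ℕ
  | [] => 0
  | [_] => 0
  | x :: y :: l => (if χ x = χ y then 0 else 1) + changes χ (y :: l)

theorem changes_eq {V : Type} (χ : V → Bool) (l : List V) :
    changes χ l = Pool.Agent.Helper80.Lat.chg χ l := by
  induction l with
  | nil => rfl
  | cons x l ih =>
    rcases l with _ | ⟨y, l⟩
    · rfl
    · unfold changes Pool.Agent.Helper80.Lat.chg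
      rw [ih]

theorem empty_layout (k : ℕ) (V : Type) [PartialOrder V] [IsEmpty V] : StackLayout k V :=
  ⟨fun _ => 0, fun v => isEmptyElim v, fun v => isEmptyElim v, fun v => isEmptyElim v,
    fun v => isEmptyElim v⟩

open Pool.Agent.Helper84.PL in
theorem main (V : Type) [Fintype V] [Lattice V] (hV : UpwardPlanar V) (χ : V → Bool) (c : ℕ)
    (h1 : ∀ (u v : V) (n : ℕ), Mo χ u v n → n < c) (h2 : H2 χ) :
    StackLayout (3 * c ^ 2 - c) V := by
  rcases isEmpty_or_nonempty V with hE | hN
  · exact empty_layout _ V
  · obtain ⟨R, τ, hB⟩ := Pool.Agent.Helper80.Lat.glue V hV χ h2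
    have hXL := Pool.Agent.Helper5.PL.xl
    exact Pool.Agent.Helper56.PL.main Pool.Agent.Helper86.PL.mt Pool.Agent.Helper61.PL.ht
      (Pool.Agent.Helper61.PL.lin Pool.Agent.Helper86.PL.mt) (Pool.Agent.Helper44.PL.bi hXL)
      (Pool.Agent.Helper44.PL.mo hXL Pool.Agent.Helper96.PL.for_) V R χ τ c hB h1

open Pool.Agent.Helper84.PL in
/-- Let `V` be a finite planar lattice. (1) Let `χ` be a colouring of the elements with two
colours such that every monochromatic saturated chain has at most `c` elements and such that, if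
a saturated chain has at most one colour change, then every saturated chain with the same ends
has the same number of colour changes. Then `V` has a stack layout with `3 c ^ 2 - c` stacks.
(2) If the cover graph of `V` is bipartite, then `V` has a 2-stack layout. (3) If there is a
function `r : V → ℤ` with `1 ≤ r b - r a ≤ c` for every cover pair `a ⋖ b`, then `V` has a stack
layout with `3 c ^ 2 - c` stacks. -/
theorem result : ∀ (V : Type) [Fintype V] [Lattice V], UpwardPlanar V →
    (∀ (χ : V → Bool) (c : ℕ),
      (∀ l : List V, l.IsChain (· ⋖ ·) → changes χ l = 0 → l.length ≤ c) →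
      (∀ l l' : List V, l.IsChain (· ⋖ ·) → l'.IsChain (· ⋖ ·) → l.head? = l'.head? →
        l.getLast? = l'.getLast? → changes χ l ≤ 1 → changes χ l' = changes χ l) →
      StackLayout (3 * c ^ 2 - c) V) ∧
    (∀ χ : V → Bool, (∀ a b : V, a ⋖ b → χ a ≠ χ b) → StackLayout 2 V) ∧
    (∀ (r : V → ℤ) (c : ℕ), 0 < c → (∀ a b : V, a ⋖ b → 1 ≤ r b - r a ∧ r b - r a ≤ c) →
      StackLayout (3 * c ^ 2 - c) V) := by
  intro V _ _ hV
  refine ⟨?_, ?_, ?_⟩
  · intro χ c h1 h2
    apply main V hV χ c
    · exact mo_of_L1 χ (fun l hl h0 => h1 l hl (by rw [changes_eq]; exact h0))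
    · exact H2_of_L2 χ (fun l l' a b e f g => by
        have := h2 l l' a b e f (by rw [changes_eq]; exact g)
        rwa [changes_eq, changes_eq] at this)
  · intro χ h
    obtain ⟨h1, h2⟩ := Pool.Agent.Helper22.PL.bip V χ h
    exact main V hV χ 1 h1 h2
  · intro r c hc h
    obtain ⟨χ, h1, h2⟩ := Pool.Agent.Helper15.PL.str V c r hc h
    exact main V hV χ c h1 h2

end Pool.Agent.Results.MP_d6b153_co.PlanarLattices
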